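import Mathlib
import Pool.Agent.H373R2.NB.Weyl
import Pool.Agent.R485.TransS.Box

/-!
# Values of real polynomials modulo one at a scale given by a rational approximation
-/

set_option autoImplicit false

namespace Pool.Agent.Run7.h439.CD

open Finset Polynomial
open Pool.Agent.H373R2.NB (Ph IW IW_all)
open Pool.Agent.Y933.KD (e)

lemma Ph_real (d : ℕ) : ∀ f : ℝ[X], f.natDegree ≤ d →
    Ph d ((d.factorial : ℝ) * f.coeff d) (fun n => f.eval (n : ℝ)) := by
  induction d with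
  | zero =>
    intro f hf n
    have h1 : f = C (f.coeff 0) := eq_C_of_natDegree_le_zero hf
    have h2 : f.eval (n : ℝ) = f.coeff 0 := by
      conv_lhs => rw [h1]
      rw [eval_C]
    show f.eval (n : ℝ) = _
    rw [h2]; simp
  | succ d ih =>
    intro f hf h
    set g : ℝ[X] := taylor (h : ℝ) f - f with hg
    have hcoef : ∀ j, d ≤ j → (taylor (h : ℝ) f).coeff j = f.coeff j + (if j = d then ((d : ℝ) + 1) * f.coeff (d + 1) * h else 0) := by
      intro j hj
      rw [taylor_coeff]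
      have h1 : (hasseDeriv j f).natDegree < 2 := by
        have := natDegree_hasseDeriv_le f j
        omega
      rw [eval_eq_sum_range' h1, sum_range_succ, sum_range_succ, sum_range_zero, hasseDeriv_coeff, hasseDeriv_coeff]
      rcases eq_or_ne j d with h2 | h2
      · subst h2
        rw [if_pos rfl, zero_add, zero_add, Nat.choose_self, add_comm 1 j, Nat.choose_succ_self_right]
        push_cast
        ring
      · rw [if_neg h2]
        have h3 : f.coeff (1 + j) = 0 := coeff_eq_zero_of_natDegree_lt (by omega)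
        rw [h3, zero_add, zero_add, Nat.choose_self]
        push_cast
        ring
    have hgd : g.natDegree ≤ d := by
      rw [natDegree_le_iff_coeff_eq_zero]
      intro j hj
      rw [hg, coeff_sub, hcoef j (by omega), if_neg (by omega)]
      ring
    have hgc : g.coeff d = ((d : ℝ) + 1) * f.coeff (d + 1) * h := by
      rw [hg, coeff_sub, hcoef d le_rfl, if_pos rfl]; ring
    have h1 := ih g hgd
    have h2 : (fun n : ℕ => g.eval (n : ℝ)) = fun n : ℕ =>
        f.eval ((n + h : ℕ) : ℝ) - f.eval (n : ℝ) := by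
      funext n
      rw [hg, eval_sub, taylor_eval]
      push_cast
      ring
    have h3 : (d.factorial : ℝ) * g.coeff d = (h : ℝ) * (((d + 1).factorial : ℝ) * f.coeff (d + 1)) := by
      rw [hgc, Nat.factorial_succ]; push_cast; ring
    rw [h2, h3] at h1
    exact h1

lemma ee_eq (x : ℝ) : Pool.Agent.Helper602.MK.ee x = e x := by
  unfold e Pool.Agent.Helper602.MK.ee
  congr 1
  push_cast
  ring

/-- `J` is the denominator of a good rational approximation to `α` -/
def GoodDen (α : ℝ) (J : ℕ) : Prop := 0 < J ∧ ∃ A : ℤ, IsCoprime A (J : ℤ) ∧ |α - A / J| < 1 / (J : ℝ) ^ 2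

lemma far {α : ℝ} {J : ℕ} (h : GoodDen α J) (q : ℕ) (hq : 1 ≤ q) (hqJ : 2 * q ≤ J) (a : ℤ) :
    1 / (2 * (J : ℝ)) ≤ |q * α - a| := by
  obtain ⟨hJ, A, hA, hα⟩ := h
  have hJ0 : (0 : ℝ) < J := by exact_mod_cast hJ
  have hne : (q : ℤ) * A - a * J ≠ 0 := by
    intro h0
    have h1 : (J : ℤ) ∣ q * A := ⟨a, by linarith⟩
    have h2 : (J : ℤ) ∣ q := hA.symm.dvd_of_dvd_mul_right h1
    have h3 : J ∣ q := by exact_mod_cast h2
    have := Nat.le_of_dvd (by omega) h3
    omega
  have h1 : (1 : ℝ) ≤ |(q : ℝ) * A - a * J| := by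
    have : (1 : ℤ) ≤ |(q : ℤ) * A - a * J| := Int.one_le_abs hne
    exact_mod_cast this
  have h2 : 1 / (J : ℝ) ≤ |(q : ℝ) * ((A : ℝ) / J) - a| := by
    have e1 : (q : ℝ) * (A / J) - a = (q * A - a * J) / J := by field_simp
    rw [e1, abs_div, abs_of_pos hJ0]
    exact div_le_div_of_nonneg_right h1 hJ0.le
  have h3 : |(q : ℝ) * ((A : ℝ) / J) - a| ≤ |q * α - a| + q * |α - A / J| := by
    have e1 : (q : ℝ) * (A / J) - a = (q * α - a) - q * (α - A / J) := by ring
    rw [e1]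
    refine (abs_sub _ _).trans ?_
    rw [abs_mul, Nat.abs_cast]
  have h4 : (q : ℝ) * |α - A / J| ≤ 1 / (2 * J) := by
    have h5 : (q : ℝ) ≤ J / 2 := by
      have : (2 * q : ℝ) ≤ J := by exact_mod_cast hqJ
      linarith
    calc (q : ℝ) * |α - A / J| ≤ (J / 2) * (1 / (J : ℝ) ^ 2) := by gcongr
      _ = 1 / (2 * J) := by field_simp
  have e2 : 1 / (J : ℝ) = 1 / (2 * J) + 1 / (2 * J) := by field_simp; norm_num
  linarith

lemma exists_den (α : ℝ) (hα : Irrational α) (K : ℕ) : ∃ J, K ≤ J ∧ GoodDen α J := by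
  by_contra hcon
  push Not at hcon
  have hinf := Real.infinite_rat_abs_sub_lt_one_div_den_sq_of_irrational hα
  apply hinf
  have hsub : {q : ℚ | |α - q| < 1 / (q.den : ℝ) ^ 2} ⊆
      ((Finset.Icc (-(⌈|α|⌉ + 1) * K) ((⌈|α|⌉ + 1) * K) ×ˢ Finset.range K).image
        (fun x : ℤ × ℕ => (x.1 : ℚ) / x.2) : Finset ℚ) := by
    intro q hq
    have hq' : |α - q| < 1 / (q.den : ℝ) ^ 2 := hq
    have hden : q.den < K := by
      by_contra hK
      push Not at hK
      refine hcon q.den hK ⟨q.pos, q.num, ?_, ?_⟩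
      · rw [Int.isCoprime_iff_gcd_eq_one]
        exact q.reduced
      · have : (q : ℝ) = q.num / q.den := by exact_mod_cast (Rat.num_div_den q).symm
        rw [← this]; exact hq'
    rw [Finset.mem_coe, Finset.mem_image]
    refine ⟨(q.num, q.den), ?_, ?_⟩
    · rw [Finset.mem_product]
      refine ⟨?_, Finset.mem_range.2 hden⟩
      have hd1 : (1 : ℝ) ≤ q.den := by exact_mod_cast q.pos
      have h1 : |(q : ℝ)| ≤ |α| + 1 := by
        have h2 : 1 / (q.den : ℝ) ^ 2 ≤ 1 := by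
          rw [div_le_one (by positivity)]
          exact one_le_pow₀ hd1
        have h3 : |(q : ℝ)| ≤ |α| + |α - q| := by
          have : (q : ℝ) = α - (α - q) := by ring
          calc |(q : ℝ)| = |α - (α - q)| := by rw [← this]
            _ ≤ _ := abs_sub _ _
        linarith
      have h4 : |(q.num : ℝ)| ≤ (⌈|α|⌉ + 1) * K := by
        have e1 : (q.num : ℝ) = q * q.den := by
          have : (q : ℝ) = q.num / q.den := by exact_mod_cast (Rat.num_div_den q).symm
          rw [this]; field_simp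
        rw [e1, abs_mul, abs_of_pos (by linarith : (0 : ℝ) < q.den)]
        have h5 : (q.den : ℝ) ≤ K := by exact_mod_cast hden.le
        have h6 : |α| ≤ ⌈|α|⌉ := Int.le_ceil _
        have h7 : 0 ≤ |α| := abs_nonneg _
        calc |(q : ℝ)| * q.den ≤ (|α| + 1) * K := by gcongr
          _ ≤ (⌈|α|⌉ + 1) * K := by gcongr
      have h5 : |q.num| ≤ (⌈|α|⌉ + 1) * K := by exact_mod_cast h4
      rw [Finset.mem_Icc]
      have h6 := abs_le.1 h5
      show -(⌈|α|⌉ + 1) * (K : ℤ) ≤ q.num ∧ q.num ≤ (⌈|α|⌉ + 1) * K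
      constructor
      · have := h6.1
        linarith
      · exact h6.2
    · exact Rat.num_div_den q
  exact (Finset.finite_toSet _).subset hsub

/-- the Weyl sum at a good scale -/
lemma weyl_good {d : ℕ} {c m : ℕ}
    (hI : ∀ (N : ℕ) (u α : ℝ) (φ : ℕ → ℝ), 1 ≤ N → 1 ≤ u → Ph d α φ →
      (N : ℝ) ≤ u * ‖∑ n ∈ range N, Pool.Agent.Helper602.MK.ee (φ n)‖ →
      ∃ q : ℕ, 1 ≤ q ∧ (q : ℝ) ≤ c * u ^ m ∧ ∃ a : ℤ, |q * α - a| ≤ c * u ^ m / (N : ℝ) ^ d)
    {α : ℝ} {J : ℕ} (hJ : GoodDen α J) {N : ℕ} (hN : 1 ≤ N) {u : ℝ} (hu : 1 ≤ u) {T : ℤ} (hT : T ≠ 0)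
    {φ : ℕ → ℝ} (hφ : Ph d (T * α) φ) (h1 : 2 * (c * u ^ m * |(T : ℝ)|) ≤ J)
    (h2 : 2 * J * (c * u ^ m) < (N : ℝ) ^ d) :
    ‖∑ n ∈ range N, e (φ n)‖ ≤ 1 / u * N := by
  by_contra hcon
  push Not at hcon
  have hu0 : 0 < u := by linarith
  have hN0 : (0 : ℝ) < N := by exact_mod_cast hN
  have hJ0 : (0 : ℝ) < J := by exact_mod_cast hJ.1
  have h3 : (N : ℝ) ≤ u * ‖∑ n ∈ range N, Pool.Agent.Helper602.MK.ee (φ n)‖ := by
    simp only [ee_eq]
    have : u * (1 / u * N) ≤ u * ‖∑ n ∈ range N, e (φ n)‖ := mul_le_mul_of_nonneg_left hcon.le hu0.le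
    have e1 : u * (1 / u * N) = N := by field_simp
    linarith
  obtain ⟨q, hq1, hq2, a, ha⟩ := hI N u _ φ hN hu hφ h3
  have hT1 : 1 ≤ T.natAbs := Int.natAbs_pos.2 hT
  have hTr : (T.natAbs : ℝ) = |(T : ℝ)| := by
    rw [Nat.cast_natAbs, Int.cast_abs]
  have hfar := far hJ (q * T.natAbs) (Nat.mul_pos hq1 hT1) (by
    have : (2 * (q * T.natAbs) : ℝ) ≤ J := by
      rw [hTr]
      refine le_trans ?_ h1
      have : (q : ℝ) * |(T : ℝ)| ≤ c * u ^ m * |(T : ℝ)| := mul_le_mul_of_nonneg_right hq2 (abs_nonneg _)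
      linarith
    exact_mod_cast this) (T.sign * a)
  have h4 : |((q * T.natAbs : ℕ) : ℝ) * α - ((T.sign * a : ℤ) : ℝ)| = |q * (T * α) - a| := by
    rcases lt_or_gt_of_ne hT with h | h
    · have e1 : T.sign = -1 := Int.sign_eq_neg_one_of_neg h
      have e2 : (T.natAbs : ℝ) = -T := by rw [hTr, abs_of_neg (by exact_mod_cast h)]
      rw [e1]
      push_cast
      rw [e2, ← abs_neg]
      congr 1
      ring
    · have e1 : T.sign = 1 := Int.sign_eq_one_of_pos h
      have e2 : (T.natAbs : ℝ) = T := by rw [hTr, abs_of_pos (by exact_mod_cast h)]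
      rw [e1]
      push_cast
      rw [e2]
      congr 1
      ring
  rw [h4] at hfar
  have h5 := hfar.trans ha
  rw [div_le_div_iff₀ (by positivity) (by positivity)] at h5
  nlinarith

/-- the number of the points of a sequence in an arc -/
lemma arc {N K : ℕ} (hN : 1 ≤ N) (hK : 0 < K) (ψ : ℕ → ℝ) (Δ : ℝ) (hΔ : 0 ≤ Δ)
    (h : ∀ t : ℤ, t ≠ 0 → |t| ≤ (K : ℤ) ^ 3 → ‖∑ n ∈ range N, e (t * ψ n)‖ ≤ Δ * N) {a b : ℝ}
    (ha : 0 ≤ a) (hab : a ≤ b) (hb : b ≤ 1) :
    |(((range N).filter (fun n => a ≤ Int.fract (ψ n) ∧ Int.fract (ψ n) < b)).card : ℝ) -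
      N * (b - a)| ≤ ((2 * (K : ℝ) ^ 3 + 1) * Δ + (12 / K + 5 * Δ)) * N := by
  have := Pool.Agent.R485.TransS.weyl_box (d := 1) hK (range N) (by simpa using (by omega : N ≠ 0))
    (fun n _ => ψ n) Δ hΔ (by
      intro t ht htK
      have h1 : t 0 ≠ 0 := by
        intro h0
        apply ht
        funext i
        rw [Subsingleton.elim i 0]
        exact h0
      simpa using h (t 0) h1 (htK 0)) (fun _ => a) (fun _ => b) (fun _ => ha) (fun _ => hab) (fun _ => hb)
  simpa using this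

end Pool.Agent.Run7.h439.CD
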