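import Mathlib
import Pool.Agent.Run7.h439.CD.A
import Pool.Agent.TH915.CN.Fam

/-!
# A real polynomial along a cubic family of congruent numbers
-/

set_option autoImplicit false

namespace Pool.Agent.Run7.h439.CD

open Finset Polynomial
open Pool.Agent.H373R2.NB (Ph IW IW_all)
open Pool.Agent.Y933.KD (e)

/-- the cubic along a progression -/
noncomputable def cub (q a b : ℝ) : ℝ[X] :=
  C (16 * q ^ 4 * a ^ 3) * X ^ 3 + C (48 * q ^ 4 * a ^ 2 * b) * X ^ 2 +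
    C (48 * q ^ 4 * a * b ^ 2 - a) * X + C (16 * q ^ 4 * b ^ 3 - b)

lemma cub_eval (q a b x : ℝ) :
    (cub q a b).eval x = 16 * q ^ 4 * (a * x + b) ^ 3 - (a * x + b) := by
  unfold cub
  simp only [eval_add, eval_mul, eval_C, eval_pow, eval_X]
  ring

lemma phase (P : ℝ[X]) (q a b : ℕ) (hq : 1 ≤ q) (ha : 1 ≤ a) (h : ℝ) :
    Ph (3 * P.natDegree) (h * ((3 * P.natDegree).factorial *
        (16 * (q : ℝ) ^ 4 * (a : ℝ) ^ 3) ^ P.natDegree * P.leadingCoeff))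
      (fun n => h * P.eval (16 * (q : ℝ) ^ 4 * ((a : ℝ) * n + b) ^ 3 - ((a : ℝ) * n + b))) := by
  have hq0 : (0 : ℝ) < q := by exact_mod_cast hq
  have ha0 : (0 : ℝ) < a := by exact_mod_cast ha
  have hA : (16 * (q : ℝ) ^ 4 * (a : ℝ) ^ 3) ≠ 0 := by positivity
  have h1 : (cub q a b).natDegree = 3 := natDegree_cubic hA
  have h2 : (cub q a b).leadingCoeff = 16 * (q : ℝ) ^ 4 * (a : ℝ) ^ 3 := leadingCoeff_cubic hA
  set f : ℝ[X] := C h * P.comp (cub q a b) with hf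
  have h3 : f.natDegree ≤ 3 * P.natDegree := by
    refine (natDegree_C_mul_le _ _).trans ?_
    rw [natDegree_comp, h1, mul_comm]
  have h4 : f.coeff (3 * P.natDegree) =
      h * (P.leadingCoeff * (16 * (q : ℝ) ^ 4 * (a : ℝ) ^ 3) ^ P.natDegree) := by
    rw [hf, coeff_C_mul]
    congr 1
    have := coeff_comp_degree_mul_degree (p := P) (q := cub q a b) (by rw [h1]; norm_num)
    rw [h1, h2, mul_comm] at this
    exact this
  have h5 := Ph_real (3 * P.natDegree) f h3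
  rw [h4] at h5
  have e1 : (fun n : ℕ => f.eval (n : ℝ)) =
      (fun n : ℕ => h * P.eval (16 * (q : ℝ) ^ 4 * ((a : ℝ) * n + b) ^ 3 - ((a : ℝ) * n + b))) := by
    funext n
    rw [hf, eval_mul, eval_C, eval_comp, cub_eval]
  have e2 : ((3 * P.natDegree).factorial : ℝ) *
      (h * (P.leadingCoeff * (16 * (q : ℝ) ^ 4 * (a : ℝ) ^ 3) ^ P.natDegree)) =
      h * ((3 * P.natDegree).factorial *
        (16 * (q : ℝ) ^ 4 * (a : ℝ) ^ 3) ^ P.natDegree * P.leadingCoeff) := by ring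
  rw [e1, e2] at h5
  exact h5

/-- the conclusion of the inverse theorem -/
def Inv (d c m : ℕ) : Prop :=
  ∀ (N : ℕ) (u α : ℝ) (φ : ℕ → ℝ), 1 ≤ N → 1 ≤ u → Ph d α φ →
      (N : ℝ) ≤ u * ‖∑ n ∈ range N, Pool.Agent.Helper602.MK.ee (φ n)‖ →
      ∃ q : ℕ, 1 ≤ q ∧ (q : ℝ) ≤ c * u ^ m ∧ ∃ a : ℤ, |q * α - a| ≤ c * u ^ m / (N : ℝ) ^ d

/-- the parameters -/
structure Par (P : ℝ[X]) (c m q W L J B : ℕ) : Prop where
  hI : Inv (3 * P.natDegree) c m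
  hκ : 1 ≤ P.natDegree
  hc : 1 ≤ c
  hq : 1 ≤ q
  hW : 1 ≤ W
  hJ : GoodDen P.leadingCoeff J
  hB : 9 * m + 12 * P.natDegree + 8 ≤ B
  hL1 : 2 * c * ((3 * P.natDegree).factorial * (16 * q ^ 4 * W ^ 3) ^ P.natDegree) ≤ L
  hLJ : L ^ B ≤ J

lemma Par.two {P : ℝ[X]} {c m q W L J B : ℕ} (h : Par P c m q W L J B) : 2 ≤ L := by
  have h1 := h.hL1
  have h2 := h.hc
  have h3 := h.hq
  have h4 := h.hW
  have h5 : 1 ≤ (3 * P.natDegree).factorial * (16 * q ^ 4 * W ^ 3) ^ P.natDegree :=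
    Nat.one_le_iff_ne_zero.2 (by positivity)
  nlinarith

lemma sums {P : ℝ[X]} {c m q W L J B : ℕ} (hp : Par P c m q W L J B) {k : ℕ}
    (hk1 : 1 ≤ k) (hkL : k ≤ L ^ 2) {N : ℕ} (hN : J ≤ N * k ^ 2) (v : ℕ) (t : ℤ) (ht : t ≠ 0)
    (htK : |t| ≤ ((L ^ 2 : ℕ) : ℤ) ^ 3) :
    ‖∑ n ∈ range N, e (t * P.eval (16 * (q : ℝ) ^ 4 * (((W * k ^ 2 : ℕ) : ℝ) * n + v) ^ 3 -
      (((W * k ^ 2 : ℕ) : ℝ) * n + v)))‖ ≤ 1 / (L : ℝ) ^ 9 * N := by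
  have hL2 := hp.two
  obtain ⟨hI, hκ, hc, hq, hW, hJ, hB, hL1, hLJ⟩ := hp
  set κ := P.natDegree with hκdef
  set H0 : ℕ := (3 * κ).factorial * (16 * q ^ 4 * W ^ 3) ^ κ with hH0
  set H : ℕ := (3 * κ).factorial * (16 * q ^ 4 * (W * k ^ 2) ^ 3) ^ κ with hH
  have hWk : 1 ≤ W * k ^ 2 := Nat.mul_pos hW (by positivity)
  have hHp : 0 < H := by positivity
  have hHle : H ≤ H0 * L ^ (12 * κ) := by
    rw [hH, hH0]
    refine le_trans (Nat.mul_le_mul_left _ ?_) (mul_assoc ((3 * κ).factorial)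
      ((16 * q ^ 4 * W ^ 3) ^ κ) (L ^ (12 * κ))).ge
    have e1 : 16 * q ^ 4 * (W * k ^ 2) ^ 3 = (16 * q ^ 4 * W ^ 3) * (k ^ 2) ^ 3 := by ring
    rw [e1, mul_pow, pow_mul]
    refine Nat.mul_le_mul_left _ (Nat.pow_le_pow_left ?_ κ)
    calc (k ^ 2) ^ 3 ≤ ((L ^ 2) ^ 2) ^ 3 := by gcongr
      _ = L ^ 12 := by ring
  have hJ1 : 1 ≤ J := hJ.1
  have hN1 : 1 ≤ N := by
    rcases Nat.eq_zero_or_pos N with h | h
    · rw [h] at hN; omega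
    · exact h
  have hT : t * (H : ℤ) ≠ 0 := mul_ne_zero ht (by exact_mod_cast hHp.ne')
  have hL1r : (1 : ℝ) ≤ (L : ℝ) := by exact_mod_cast (by omega : 1 ≤ L)
  have hφ := phase P q (W * k ^ 2) v hq hWk (t : ℝ)
  rw [← hκdef] at hφ
  have e1 : (t : ℝ) * ((3 * κ).factorial * (16 * (q : ℝ) ^ 4 * ((W * k ^ 2 : ℕ) : ℝ) ^ 3) ^ κ *
      P.leadingCoeff) = ((t * (H : ℤ) : ℤ) : ℝ) * P.leadingCoeff := by
    rw [hH]; push_cast; ring
  rw [e1] at hφ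
  refine weyl_good hI hJ hN1 (one_le_pow₀ hL1r) hT hφ ?_ ?_
  · have ht' : |(t : ℝ)| ≤ (L : ℝ) ^ 6 := by
      have : ((|t| : ℤ) : ℝ) ≤ ((((L ^ 2 : ℕ) : ℤ) ^ 3 : ℤ) : ℝ) := by exact_mod_cast htK
      push_cast at this
      calc |(t : ℝ)| ≤ ((L : ℝ) ^ 2) ^ 3 := this
        _ = _ := by ring
    have hH' : (H : ℝ) ≤ H0 * (L : ℝ) ^ (12 * κ) := by exact_mod_cast hHle
    have e2 : |((t * (H : ℤ) : ℤ) : ℝ)| = |(t : ℝ)| * H := by
      push_cast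
      rw [abs_mul, Nat.abs_cast]
    rw [e2]
    have h1 : 2 * c * H0 * L ^ (9 * m + 12 * κ + 6) ≤ J := by
      calc 2 * c * H0 * L ^ (9 * m + 12 * κ + 6) ≤ L * L ^ (9 * m + 12 * κ + 6) :=
            Nat.mul_le_mul_right _ hL1
        _ = L ^ (9 * m + 12 * κ + 7) := by ring
        _ ≤ L ^ B := Nat.pow_le_pow_right (by omega) (by omega)
        _ ≤ J := hLJ
    have h2 : (2 * c * H0 * (L : ℝ) ^ (9 * m + 12 * κ + 6)) ≤ J := by exact_mod_cast h1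
    calc 2 * (c * ((L : ℝ) ^ 9) ^ m * (|(t : ℝ)| * H))
        ≤ 2 * (c * ((L : ℝ) ^ 9) ^ m * ((L : ℝ) ^ 6 * (H0 * (L : ℝ) ^ (12 * κ)))) := by gcongr
      _ = 2 * c * H0 * (L : ℝ) ^ (9 * m + 12 * κ + 6) := by ring
      _ ≤ J := h2
  · have h3 : N ^ 3 ≤ N ^ (3 * κ) := Nat.pow_le_pow_right hN1 (by omega)
    have h4 : J ^ 3 ≤ N ^ 3 * L ^ 12 := by
      calc J ^ 3 ≤ (N * k ^ 2) ^ 3 := by gcongr
        _ ≤ (N * (L ^ 2) ^ 2) ^ 3 := by gcongr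
        _ = N ^ 3 * L ^ 12 := by ring
    have hH0p : 1 ≤ H0 := Nat.one_le_iff_ne_zero.2 (by positivity)
    have h5 : 2 * c * L ^ (9 * m + 12) < J := by
      have h6 : 2 * c ≤ L := by
        calc 2 * c = 2 * c * 1 := by ring
          _ ≤ 2 * c * H0 := Nat.mul_le_mul_left _ hH0p
          _ ≤ L := hL1
      calc 2 * c * L ^ (9 * m + 12) ≤ L * L ^ (9 * m + 12) := Nat.mul_le_mul_right _ h6
        _ = L ^ (9 * m + 13) := by ring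
        _ < L ^ B := Nat.pow_lt_pow_right (by omega) (by omega)
        _ ≤ J := hLJ
    have h7 : (2 * J * (c * (L ^ 9) ^ m)) * L ^ 12 < N ^ 3 * L ^ 12 := by
      calc (2 * J * (c * (L ^ 9) ^ m)) * L ^ 12 = J * (2 * c * L ^ (9 * m + 12)) := by ring
        _ < J * J := Nat.mul_lt_mul_of_pos_left h5 hJ1
        _ = J ^ 2 := by ring
        _ ≤ J ^ 3 := Nat.pow_le_pow_right hJ1 (by norm_num)
        _ ≤ _ := h4
    have h8 : 2 * J * (c * (L ^ 9) ^ m) < N ^ (3 * κ) :=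
      lt_of_lt_of_le (lt_of_mul_lt_mul_right h7 (Nat.zero_le _)) h3
    exact_mod_cast h8

lemma err_le {L : ℕ} (hL : 1 ≤ L) :
    (2 * ((L ^ 2 : ℕ) : ℝ) ^ 3 + 1) * (1 / (L : ℝ) ^ 9) + (12 / ((L ^ 2 : ℕ) : ℝ) + 5 * (1 / (L : ℝ) ^ 9)) ≤
      20 / (L : ℝ) ^ 2 := by
  have hL0 : (1 : ℝ) ≤ L := by exact_mod_cast hL
  have hp : (0 : ℝ) < L := by linarith
  have h1 : 1 / (L : ℝ) ^ 9 ≤ 1 / (L : ℝ) ^ 2 :=
    one_div_le_one_div_of_le (by positivity) (pow_le_pow_right₀ hL0 (by norm_num))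
  have h2 : 1 / (L : ℝ) ^ 3 ≤ 1 / (L : ℝ) ^ 2 :=
    one_div_le_one_div_of_le (by positivity) (pow_le_pow_right₀ hL0 (by norm_num))
  have e1 : (2 * ((L ^ 2 : ℕ) : ℝ) ^ 3 + 1) * (1 / (L : ℝ) ^ 9) +
      (12 / ((L ^ 2 : ℕ) : ℝ) + 5 * (1 / (L : ℝ) ^ 9)) =
      2 * (1 / (L : ℝ) ^ 3) + 12 * (1 / (L : ℝ) ^ 2) + 6 * (1 / (L : ℝ) ^ 9) := by
    push_cast
    field_simp
    ring
  have e2 : 20 / (L : ℝ) ^ 2 = 20 * (1 / (L : ℝ) ^ 2) := by ring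
  rw [e1, e2]
  linarith

/-- the value at the member number `j` -/
noncomputable def val (P : ℝ[X]) (q W v j : ℕ) : ℝ :=
  P.eval (16 * (q : ℝ) ^ 4 * ((W : ℝ) * j + v) ^ 3 - ((W : ℝ) * j + v))

/-- the members in the arc -/
noncomputable def arcSet (P : ℝ[X]) (q W v J : ℕ) (a b : ℝ) : Finset ℕ :=
  (range J).filter (fun j => a ≤ Int.fract (val P q W v j) ∧ Int.fract (val P q W v j) < b)

lemma arc_class {P : ℝ[X]} {c m q W L J B : ℕ} (hp : Par P c m q W L J B) {k : ℕ}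
    (hk1 : 1 ≤ k) (hkL : k ≤ L ^ 2) (v : ℕ) {a b : ℝ} (ha : 0 ≤ a) (hab : a ≤ b) (hb : b ≤ 1)
    (r : ℕ) : (((arcSet P q W v J a b).filter (fun j => j ≡ r [MOD k ^ 2])).card : ℝ) ≤
      ((J : ℝ) / (k : ℝ) ^ 2 + 1) * ((b - a) + 20 / (L : ℝ) ^ 2) := by
  have hk2 : 0 < k ^ 2 := by positivity
  set N := J / k ^ 2 + 1 with hN
  have hN1 : 1 ≤ N := Nat.le_add_left 1 _
  have hJN : J ≤ N * k ^ 2 := by
    have := Nat.lt_mul_div_succ J hk2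
    rw [hN, mul_comm]
    exact this.le
  have hL1 : 1 ≤ L := by have := hp.two; omega
  set r0 := r % k ^ 2 with hr0
  have h1 := arc (K := L ^ 2) hN1 (by positivity)
    (fun n => P.eval (16 * (q : ℝ) ^ 4 * (((W * k ^ 2 : ℕ) : ℝ) * n + (W * r0 + v : ℕ)) ^ 3 -
      (((W * k ^ 2 : ℕ) : ℝ) * n + (W * r0 + v : ℕ)))) (1 / (L : ℝ) ^ 9) (by positivity)
    (fun t ht htK => sums hp hk1 hkL hJN (W * r0 + v) t ht htK) ha hab hb
  have h2 := (abs_le.1 h1).2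
  have h3 := err_le hL1
  have hNle : (N : ℝ) ≤ (J : ℝ) / (k : ℝ) ^ 2 + 1 := by
    rw [hN]
    push_cast
    have := Nat.cast_div_le (α := ℝ) (m := J) (n := k ^ 2)
    push_cast at this
    linarith
  have h4 : ((arcSet P q W v J a b).filter (fun j => j ≡ r [MOD k ^ 2])).card ≤
      ((range N).filter (fun n : ℕ =>
        a ≤ Int.fract (P.eval (16 * (q : ℝ) ^ 4 * (((W * k ^ 2 : ℕ) : ℝ) * n + (W * r0 + v : ℕ)) ^ 3 -
          (((W * k ^ 2 : ℕ) : ℝ) * n + (W * r0 + v : ℕ)))) ∧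
        Int.fract (P.eval (16 * (q : ℝ) ^ 4 * (((W * k ^ 2 : ℕ) : ℝ) * n + (W * r0 + v : ℕ)) ^ 3 -
          (((W * k ^ 2 : ℕ) : ℝ) * n + (W * r0 + v : ℕ)))) < b)).card := by
    refine Finset.card_le_card_of_injOn (fun j => j / k ^ 2) ?_ ?_
    · intro j hj
      rw [Finset.mem_coe, mem_filter, arcSet, mem_filter, mem_range] at hj
      obtain ⟨⟨hj1, hj2⟩, hj3⟩ := hj
      have e0 : j = k ^ 2 * (j / k ^ 2) + r0 := by
        have h5 := Nat.div_add_mod j (k ^ 2)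
        have h6 : j % k ^ 2 = r % k ^ 2 := hj3
        rw [h6] at h5
        exact h5.symm
      have e1 : val P q W v j = P.eval (16 * (q : ℝ) ^ 4 *
          (((W * k ^ 2 : ℕ) : ℝ) * ((j / k ^ 2 : ℕ) : ℝ) + (W * r0 + v : ℕ)) ^ 3 -
          (((W * k ^ 2 : ℕ) : ℝ) * ((j / k ^ 2 : ℕ) : ℝ) + (W * r0 + v : ℕ))) := by
        have e2 : ((W : ℝ) * j + v) =
            (((W * k ^ 2 : ℕ) : ℝ) * ((j / k ^ 2 : ℕ) : ℝ) + (W * r0 + v : ℕ)) := by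
          have e3 : (j : ℝ) = (k : ℝ) ^ 2 * ((j / k ^ 2 : ℕ) : ℝ) + r0 := by exact_mod_cast e0
          push_cast
          rw [e3]
          ring
        rw [val, e2]
      rw [Finset.mem_coe, mem_filter, mem_range]
      refine ⟨?_, ?_⟩
      · exact Nat.lt_succ_of_le (Nat.div_le_div_right hj1.le)
      · rw [← e1]; exact hj2
    · intro j hj j' hj' heq
      rw [Finset.mem_coe, mem_filter] at hj hj'
      have h5 := Nat.div_add_mod j (k ^ 2)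
      have h6 := Nat.div_add_mod j' (k ^ 2)
      have h7 : j % k ^ 2 = j' % k ^ 2 := hj.2.trans hj'.2.symm
      have h8 : j / k ^ 2 = j' / k ^ 2 := heq
      rw [h7, h8] at h5
      omega
  have h5 : (((arcSet P q W v J a b).filter (fun j => j ≡ r [MOD k ^ 2])).card : ℝ) ≤
      N * (b - a) + (20 / (L : ℝ) ^ 2) * N := by
    have h6 : (((arcSet P q W v J a b).filter (fun j => j ≡ r [MOD k ^ 2])).card : ℝ) ≤ _ :=
      Nat.cast_le.2 h4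
    have h7 : ((2 * ((L ^ 2 : ℕ) : ℝ) ^ 3 + 1) * (1 / (L : ℝ) ^ 9) +
        (12 / ((L ^ 2 : ℕ) : ℝ) + 5 * (1 / (L : ℝ) ^ 9))) * N ≤ (20 / (L : ℝ) ^ 2) * N :=
      mul_le_mul_of_nonneg_right h3 (Nat.cast_nonneg _)
    linarith
  calc (((arcSet P q W v J a b).filter (fun j => j ≡ r [MOD k ^ 2])).card : ℝ)
      ≤ N * (b - a) + (20 / (L : ℝ) ^ 2) * N := h5
    _ = N * ((b - a) + 20 / (L : ℝ) ^ 2) := by ring
    _ ≤ _ := mul_le_mul_of_nonneg_right hNle (by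
        have : 0 ≤ 20 / (L : ℝ) ^ 2 := by positivity
        linarith)

lemma arc_all {P : ℝ[X]} {c m q W L J B : ℕ} (hp : Par P c m q W L J B) (v : ℕ) {a b : ℝ}
    (ha : 0 ≤ a) (hab : a ≤ b) (hb : b ≤ 1) :
    J * ((b - a) - 20 / (L : ℝ) ^ 2) ≤ ((arcSet P q W v J a b).card : ℝ) := by
  have hL1 : 1 ≤ L := by have := hp.two; omega
  have h1 := arc (K := L ^ 2) (N := J) hp.hJ.1 (by positivity)
    (fun n => P.eval (16 * (q : ℝ) ^ 4 * (((W * 1 ^ 2 : ℕ) : ℝ) * n + (v : ℕ)) ^ 3 -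
      (((W * 1 ^ 2 : ℕ) : ℝ) * n + (v : ℕ)))) (1 / (L : ℝ) ^ 9) (by positivity)
    (fun t ht htK => sums hp le_rfl (Nat.one_le_pow _ _ hL1) (by omega) v t ht htK) ha hab hb
  have h2 := (abs_le.1 h1).1
  have h3 := err_le hL1
  have h7 : ((2 * ((L ^ 2 : ℕ) : ℝ) ^ 3 + 1) * (1 / (L : ℝ) ^ 9) +
        (12 / ((L ^ 2 : ℕ) : ℝ) + 5 * (1 / (L : ℝ) ^ 9))) * J ≤ (20 / (L : ℝ) ^ 2) * J :=
      mul_le_mul_of_nonneg_right h3 (Nat.cast_nonneg _)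
  have e1 : arcSet P q W v J a b = (range J).filter (fun n : ℕ =>
        a ≤ Int.fract (P.eval (16 * (q : ℝ) ^ 4 * (((W * 1 ^ 2 : ℕ) : ℝ) * n + (v : ℕ)) ^ 3 -
      (((W * 1 ^ 2 : ℕ) : ℝ) * n + (v : ℕ)))) ∧
        Int.fract (P.eval (16 * (q : ℝ) ^ 4 * (((W * 1 ^ 2 : ℕ) : ℝ) * n + (v : ℕ)) ^ 3 -
      (((W * 1 ^ 2 : ℕ) : ℝ) * n + (v : ℕ)))) < b) := by
    unfold arcSet val
    simp only [one_pow, mul_one]
  rw [e1]
  linarith

end Pool.Agent.Run7.h439.CD
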