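import Mathlib
import Pool.Agent.Run7.h439.CD.B

/-!
# The sieve
-/

set_option autoImplicit false

namespace Pool.Agent.Run7.h439.CD

open Finset Polynomial
open Pool.Agent.TH915.CN (card_form sum_odd_sq class_rep exists_start squarefree_three)

lemma modEq_of_form {m A : ℕ} {B : ℤ} (hA : Nat.Coprime m A) {i j : ℕ}
    (h1 : (m : ℤ) ∣ (A : ℤ) * i + B) (h2 : (m : ℤ) ∣ (A : ℤ) * j + B) : i ≡ j [MOD m] := by
  have h3 : (m : ℤ) ∣ (A : ℤ) * ((j : ℤ) - i) := by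
    have := dvd_sub h2 h1
    have e : (A : ℤ) * j + B - ((A : ℤ) * i + B) = (A : ℤ) * ((j : ℤ) - i) := by ring
    rwa [e] at this
  have h4 : IsCoprime (m : ℤ) (A : ℤ) := Nat.isCoprime_iff_coprime.2 hA
  have h5 : (m : ℤ) ∣ (j : ℤ) - i := h4.dvd_of_dvd_mul_left h3
  exact (Nat.modEq_iff_dvd).2 h5

/-- no square of an odd number up to `N0` divides a form -/
def Free (A : Fin 3 → ℕ) (B : Fin 3 → ℤ) (N0 j : ℕ) : Prop :=
  ∀ k : ℕ, Odd k → 3 ≤ k → k ≤ N0 → (∀ i, Nat.Coprime k (A i)) →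
    ∀ i, ¬ ((k ^ 2 : ℕ) : ℤ) ∣ (A i : ℤ) * j + B i

open scoped Classical in
lemma survivors {J N0 D : ℕ} (A : Fin 3 → ℕ) (B : Fin 3 → ℤ) (S : Finset ℕ)
    (hS : S ⊆ range J) {σ : ℝ} (hσ : 0 ≤ σ)
    (h2 : ∀ k : ℕ, 3 ≤ k → k ≤ D → ∀ c,
      (((S.filter (fun j => j ≡ c [MOD k ^ 2])).card : ℝ) ≤ (J / (k : ℝ) ^ 2 + 1) * σ)) :
    (S.card : ℝ) - 3 * (σ * (J / 4 + D)) - 3 * (2 * J / (D + 1) + N0) ≤
      ((S.filter (fun j : ℕ => Free A B N0 j)).card : ℝ) := by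
  set G := S.filter (fun j : ℕ => Free A B N0 j) with hG
  set T1 : ℕ × Fin 3 → Finset ℕ := fun x =>
    if (∀ i, Nat.Coprime (2 * x.1 + 3) (A i)) ∧ 2 * x.1 + 3 ≤ D then
    S.filter (fun j : ℕ => (((2 * x.1 + 3) ^ 2 : ℕ) : ℤ) ∣ (A x.2 : ℤ) * j + B x.2) else ∅ with hT1
  set T2 : ℕ × Fin 3 → Finset ℕ := fun x => if (∀ i, Nat.Coprime x.1 (A i)) then
    (range J).filter (fun j : ℕ => ((x.1 ^ 2 : ℕ) : ℤ) ∣ (A x.2 : ℤ) * j + B x.2) else ∅ with hT2
  have hsub : S ⊆ G ∪ (((range D ×ˢ (Finset.univ : Finset (Fin 3))).biUnion T1) ∪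
      ((Ioo D (N0 + 1) ×ˢ (Finset.univ : Finset (Fin 3))).biUnion T2)) := by
    intro j hj
    by_cases hg : Free A B N0 j
    · exact mem_union_left _ (mem_filter.2 ⟨hj, hg⟩)
    · apply mem_union_right
      unfold Free at hg
      push Not at hg
      obtain ⟨k, hk1, hk2, hk3, hk4, i, hk5⟩ := hg
      by_cases hkD : k ≤ D
      · apply mem_union_left
        obtain ⟨e, he⟩ := hk1
        have he1 : 2 * (e - 1) + 3 = k := by omega
        rw [mem_biUnion]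
        refine ⟨(e - 1, i), mem_product.2 ⟨mem_range.2 (by show e - 1 < D; omega), mem_univ _⟩, ?_⟩
        simp only [hT1]
        rw [he1, if_pos ⟨hk4, hkD⟩, mem_filter]
        exact ⟨hj, hk5⟩
      · apply mem_union_right
        rw [mem_biUnion]
        refine ⟨(k, i), mem_product.2 ⟨mem_Ioo.2 ⟨by show D < k; omega, by show k < N0 + 1; omega⟩,
          mem_univ _⟩, ?_⟩
        simp only [hT2]
        rw [if_pos hk4, mem_filter]
        exact ⟨hS hj, hk5⟩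
  have hc1 : ∀ x : ℕ × Fin 3, ((T1 x).card : ℝ) ≤
      σ * (J * (1 / ((2 * (x.1 : ℝ) + 3) ^ 2)) + 1) := by
    intro x
    rcases (T1 x).eq_empty_or_nonempty with h | ⟨j0, hj0⟩
    · rw [h, card_empty, Nat.cast_zero]
      positivity
    · simp only [hT1] at hj0
      split_ifs at hj0 with h
      · have hsub' : T1 x ⊆ S.filter (fun j => j ≡ j0 [MOD (2 * x.1 + 3) ^ 2]) := by
          intro j hj
          simp only [hT1] at hj
          rw [if_pos h] at hj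
          have h3 := mem_filter.1 hj
          have h4 := mem_filter.1 hj0
          exact mem_filter.2 ⟨h3.1, modEq_of_form ((h.1 x.2).pow_left 2) h3.2 h4.2⟩
        have h3 := h2 (2 * x.1 + 3) (by omega) h.2 j0
        have h4 : ((T1 x).card : ℝ) ≤ _ := Nat.cast_le.2 (card_le_card hsub')
        refine h4.trans (h3.trans (le_of_eq ?_))
        push_cast
        ring
      · exact absurd hj0 (notMem_empty _)
  have hc2 : ∀ x : ℕ × Fin 3, ((T2 x).card : ℝ) ≤ J * (((x.1 : ℝ) ^ 2)⁻¹) + 1 := by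
    intro x
    simp only [hT2]
    split_ifs with h
    · have h1 := card_form (J := J) (m := x.1 ^ 2) (A := A x.2) (B := B x.2) ((h x.2).pow_left 2)
      have h3 : ((J / x.1 ^ 2 : ℕ) : ℝ) ≤ J * (((x.1 : ℝ) ^ 2)⁻¹) := by
        have := Nat.cast_div_le (α := ℝ) (m := J) (n := x.1 ^ 2)
        push_cast at this
        rw [← div_eq_mul_inv]
        exact this
      have h4 : ((((range J).filter
          (fun j : ℕ => ((x.1 ^ 2 : ℕ) : ℤ) ∣ (A x.2 : ℤ) * j + B x.2)).card : ℕ) : ℝ) ≤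
          ((J / x.1 ^ 2 : ℕ) : ℝ) + 1 := by exact_mod_cast h1
      linarith
    · simp only [Finset.card_empty, Nat.cast_zero]
      positivity
  have h1 : (S.card : ℝ) ≤ G.card + (∑ x ∈ range D ×ˢ (Finset.univ : Finset (Fin 3)), ((T1 x).card : ℝ) +
      ∑ x ∈ Ioo D (N0 + 1) ×ˢ (Finset.univ : Finset (Fin 3)), ((T2 x).card : ℝ)) := by
    have h3 := (card_le_card hsub).trans ((card_union_le _ _).trans
      (Nat.add_le_add_left ((card_union_le _ _).trans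
        (Nat.add_le_add card_biUnion_le card_biUnion_le)) _))
    exact_mod_cast h3
  have h3 : ∑ x ∈ range D ×ˢ (Finset.univ : Finset (Fin 3)), ((T1 x).card : ℝ) ≤
      3 * (σ * (J / 4 + D)) := by
    calc ∑ x ∈ range D ×ˢ (Finset.univ : Finset (Fin 3)), ((T1 x).card : ℝ)
        ≤ ∑ x ∈ range D ×ˢ (Finset.univ : Finset (Fin 3)),
          σ * (J * (1 / ((2 * (x.1 : ℝ) + 3) ^ 2)) + 1) := sum_le_sum fun x _ => hc1 x
      _ = 3 * (σ * (J * (∑ e ∈ range D, 1 / ((2 * (e : ℝ) + 3) ^ 2)) + D)) := by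
          rw [sum_product]
          simp only [sum_const, card_univ, Fintype.card_fin, nsmul_eq_mul]
          rw [← mul_sum, ← mul_sum, sum_add_distrib, ← mul_sum, sum_const, card_range, nsmul_eq_mul]
          push_cast
          ring
      _ ≤ 3 * (σ * (J / 4 + D)) := by
          have h4 := sum_odd_sq D
          have h5 : (J : ℝ) * (∑ e ∈ range D, 1 / ((2 * (e : ℝ) + 3) ^ 2)) ≤ J / 4 := by
            have := mul_le_mul_of_nonneg_left h4 (Nat.cast_nonneg (α := ℝ) J)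
            linarith
          gcongr
  have h4 : ∑ x ∈ Ioo D (N0 + 1) ×ˢ (Finset.univ : Finset (Fin 3)), ((T2 x).card : ℝ) ≤
      3 * (2 * J / (D + 1) + N0) := by
    calc ∑ x ∈ Ioo D (N0 + 1) ×ˢ (Finset.univ : Finset (Fin 3)), ((T2 x).card : ℝ)
        ≤ ∑ x ∈ Ioo D (N0 + 1) ×ˢ (Finset.univ : Finset (Fin 3)),
          (J * (((x.1 : ℝ) ^ 2)⁻¹) + 1) := sum_le_sum fun x _ => hc2 x
      _ = 3 * (J * (∑ k ∈ Ioo D (N0 + 1), ((k : ℝ) ^ 2)⁻¹) + ((N0 - D : ℕ) : ℝ)) := by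
          rw [sum_product]
          simp only [sum_const, card_univ, Fintype.card_fin, nsmul_eq_mul]
          rw [← mul_sum, sum_add_distrib, ← mul_sum, sum_const, Nat.card_Ioo, nsmul_eq_mul]
          have e1 : N0 + 1 - D - 1 = N0 - D := by omega
          rw [e1]
          push_cast
          ring
      _ ≤ 3 * (2 * J / (D + 1) + N0) := by
          have h5 := sum_Ioo_inv_sq_le (α := ℝ) D (N0 + 1)
          have h6 : (J : ℝ) * (∑ k ∈ Ioo D (N0 + 1), ((k : ℝ) ^ 2)⁻¹) ≤ 2 * J / (D + 1) := by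
            have := mul_le_mul_of_nonneg_left h5 (Nat.cast_nonneg (α := ℝ) J)
            calc (J : ℝ) * (∑ k ∈ Ioo D (N0 + 1), ((k : ℝ) ^ 2)⁻¹) ≤ J * (2 / (D + 1)) := this
              _ = _ := by ring
          have h7 : ((N0 - D : ℕ) : ℝ) ≤ N0 := by exact_mod_cast Nat.sub_le _ _
          gcongr
  linarith

/-- the member of the family -/
def fam (q u : ℕ) : ℕ := u * (4 * q ^ 2 * u - 1) * (4 * q ^ 2 * u + 1)

lemma four_le {q u : ℕ} (hq : 1 ≤ q) (hu : 1 ≤ u) : 4 ≤ 4 * q ^ 2 * u := by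
  have : 1 ≤ q ^ 2 * u := Nat.mul_pos (Nat.one_le_pow _ _ hq) hu
  have e : 4 * q ^ 2 * u = 4 * (q ^ 2 * u) := by ring
  omega

lemma fam_cast {q u : ℕ} (hq : 1 ≤ q) (hu : 1 ≤ u) :
    (fam q u : ℝ) = 16 * (q : ℝ) ^ 4 * (u : ℝ) ^ 3 - u := by
  have := four_le hq hu
  unfold fam
  rw [Nat.cast_mul, Nat.cast_mul, Nat.cast_sub (by omega)]
  push_cast
  ring

lemma fam_lt {q u u' : ℕ} (hq : 1 ≤ q) (hu : 1 ≤ u) (h : u < u') : fam q u < fam q u' := by
  have h1 := four_le hq hu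
  have h2 : 4 * q ^ 2 * u ≤ 4 * q ^ 2 * u' := Nat.mul_le_mul_left _ h.le
  unfold fam
  have h3 : u * (4 * q ^ 2 * u - 1) < u' * (4 * q ^ 2 * u' - 1) := by
    have h4 : 4 * q ^ 2 * u - 1 ≤ 4 * q ^ 2 * u' - 1 := by omega
    calc u * (4 * q ^ 2 * u - 1) < u' * (4 * q ^ 2 * u - 1) :=
          Nat.mul_lt_mul_of_pos_right h (by omega)
      _ ≤ _ := Nat.mul_le_mul_left _ h4
  calc u * (4 * q ^ 2 * u - 1) * (4 * q ^ 2 * u + 1) < u' * (4 * q ^ 2 * u' - 1) * (4 * q ^ 2 * u + 1) :=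
        Nat.mul_lt_mul_of_pos_right h3 (by omega)
    _ ≤ _ := Nat.mul_le_mul_left _ (by omega)

/-- congruent numbers -/
def Congruent (a : ℕ) : Prop := ∃ x y z t : ℕ, 0 < x ∧ 0 < y ∧ 0 < z ∧ 0 < t ∧
  x ^ 2 + a * y ^ 2 = z ^ 2 ∧ x ^ 2 = a * y ^ 2 + t ^ 2

lemma fam_congruent {q u : ℕ} (hq : 1 ≤ q) (hu : 1 ≤ u) : Congruent (fam q u) := by
  have h1 := four_le hq hu
  obtain ⟨w, hw⟩ : ∃ w, 4 * q ^ 2 * u = w + 4 := ⟨4 * q ^ 2 * u - 4, by omega⟩
  refine ⟨(w + 4) ^ 2 + 1, 4 * q, (w + 4) ^ 2 + 2 * (w + 4) - 1, (w + 4) ^ 2 - 2 * (w + 4) - 1,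
    by positivity, by omega, ?_, ?_, ?_, ?_⟩
  · have : (w + 4) ^ 2 + 2 * (w + 4) - 1 = w ^ 2 + 10 * w + 23 := by
      have : (w + 4) ^ 2 + 2 * (w + 4) = w ^ 2 + 10 * w + 24 := by ring
      omega
    rw [this]; omega
  · have : (w + 4) ^ 2 - 2 * (w + 4) - 1 = w ^ 2 + 6 * w + 7 := by
      have : (w + 4) ^ 2 = w ^ 2 + 8 * w + 16 := by ring
      omega
    rw [this]; omega
  · have e1 : (w + 4) ^ 2 + 2 * (w + 4) - 1 = w ^ 2 + 10 * w + 23 := by
      have : (w + 4) ^ 2 + 2 * (w + 4) = w ^ 2 + 10 * w + 24 := by ring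
      omega
    have e2 : fam q u * (4 * q) ^ 2 = 4 * ((w + 4) * (w + 3) * (w + 5)) := by
      have e3 : fam q u = u * (w + 3) * (w + 5) := by
        unfold fam
        rw [hw]
        have : w + 4 - 1 = w + 3 := by omega
        rw [this]
      rw [e3]
      calc u * (w + 3) * (w + 5) * (4 * q) ^ 2 = 4 * ((4 * q ^ 2 * u) * (w + 3) * (w + 5)) := by ring
        _ = _ := by rw [hw]
    rw [e1, e2]
    ring
  · have e1 : (w + 4) ^ 2 - 2 * (w + 4) - 1 = w ^ 2 + 6 * w + 7 := by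
      have : (w + 4) ^ 2 = w ^ 2 + 8 * w + 16 := by ring
      omega
    have e2 : fam q u * (4 * q) ^ 2 = 4 * ((w + 4) * (w + 3) * (w + 5)) := by
      have e3 : fam q u = u * (w + 3) * (w + 5) := by
        unfold fam
        rw [hw]
        have : w + 4 - 1 = w + 3 := by omega
        rw [this]
      rw [e3]
      calc u * (w + 3) * (w + 5) * (4 * q) ^ 2 = 4 * ((4 * q ^ 2 * u) * (w + 3) * (w + 5)) := by ring
        _ = _ := by rw [hw]
    rw [e1, e2]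
    ring

/-- the start of the progression -/
lemma start {q a : ℕ} (hq : 1 ≤ q) (hg : Squarefree (Nat.gcd a (8 * q))) :
    ∃ v : ℕ, 1 ≤ v ∧ v ≤ 8 * q * Nat.gcd a (8 * q) ∧ ∀ N j : ℕ,
      Free ![8 * q * Nat.gcd a (8 * q), 4 * q ^ 2 * (8 * q * Nat.gcd a (8 * q)),
          4 * q ^ 2 * (8 * q * Nat.gcd a (8 * q))]
        ![(v : ℤ), 4 * (q : ℤ) ^ 2 * v - 1, 4 * (q : ℤ) ^ 2 * v + 1] N j →
      4 * q ^ 2 * (v + 8 * q * Nat.gcd a (8 * q) * j) + 1 < (N + 1) ^ 2 →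
      Squarefree (fam q (v + 8 * q * Nat.gcd a (8 * q) * j)) ∧
        fam q (v + 8 * q * Nat.gcd a (8 * q) * j) ≡ a [MOD 8 * q] := by
  obtain ⟨a', ha', hrep⟩ := class_rep (8 * q) a hg
  set g := Nat.gcd a (8 * q) with hgdef
  have hg0 : 1 ≤ g := Nat.one_le_iff_ne_zero.2 hg.ne_zero
  have hgM : g ∣ 8 * q := Nat.gcd_dvd_right _ _
  set Q := 8 * q * g with hQ
  have hQ1 : 1 ≤ Q := Nat.mul_pos (by omega) hg0
  obtain ⟨u0, hu1, hu2, hu3⟩ := exists_start Q a' 1 hQ1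
  refine ⟨u0, hu1, by omega, ?_⟩
  intro N j hj hN
  set u := u0 + Q * j with hu
  have hU0 : 1 ≤ u := by omega
  have hq2 : 1 ≤ q ^ 2 := Nat.one_le_pow _ _ hq
  have hm4 : 4 ≤ 4 * q ^ 2 * u := four_le hq hU0
  have huW : u ≤ 4 * q ^ 2 * u + 1 := by
    have : 1 * u ≤ 4 * q ^ 2 * u := Nat.mul_le_mul_right _ (by omega)
    omega
  -- coprimality for primes not dividing 8 q
  have hcop : ∀ p : ℕ, p.Prime → ¬ p ∣ 8 * q → Odd p ∧ 3 ≤ p ∧
      ∀ i : Fin 3, Nat.Coprime p ((![Q, 4 * q ^ 2 * Q, 4 * q ^ 2 * Q] : Fin 3 → ℕ) i) := by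
    intro p hp hpq
    have h2 : p ≠ 2 := by
      rintro rfl
      exact hpq (Dvd.dvd.mul_right (by norm_num) q)
    have hodd : Odd p := hp.odd_of_ne_two h2
    have hc : Nat.Coprime p (8 * q) := (Nat.Prime.coprime_iff_not_dvd hp).2 hpq
    have hcq : Nat.Coprime p q := hc.coprime_mul_left_right
    have hc4 : Nat.Coprime p 4 := by
      have : Nat.Coprime p 2 := (Nat.coprime_primes hp Nat.prime_two).2 h2
      have e : (4 : ℕ) = 2 ^ 2 := by norm_num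
      rw [e]; exact this.pow_right 2
    have hcg : Nat.Coprime p g := hc.coprime_dvd_right hgM
    have hcQ : Nat.Coprime p Q := by rw [hQ]; exact hc.mul_right hcg
    have hcQ2 : Nat.Coprime p (4 * q ^ 2 * Q) := (hc4.mul_right (hcq.pow_right 2)).mul_right hcQ
    refine ⟨hodd, ?_, ?_⟩
    · have := hp.two_le
      omega
    · intro i
      fin_cases i
      · exact hcQ
      · exact hcQ2
      · exact hcQ2
  have hsmall : ∀ p x : ℕ, p * p ∣ x → 0 < x → x ≤ 4 * q ^ 2 * u + 1 → p ≤ N := by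
    intro p x h1 h2 h3
    have h4 : p ^ 2 < (N + 1) ^ 2 := by
      rw [pow_two]
      exact lt_of_le_of_lt ((Nat.le_of_dvd h2 h1).trans h3) hN
    exact Nat.lt_succ_iff.1 (lt_of_pow_lt_pow_left₀ 2 (Nat.zero_le _) h4)
  -- squarefreeness of the three factors
  have hsu : Squarefree u := by
    rw [Nat.squarefree_iff_prime_squarefree]
    intro p hp hpu
    by_cases hpq : p ∣ 8 * q
    · refine hrep p hp hpq u ?_ (by rw [pow_two]; exact hpu)
      have : u + a' = (u0 + a') + Q * j := by rw [hu]; ring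
      rw [this]
      exact dvd_add hu3 (dvd_mul_right _ _)
    · obtain ⟨c1, c2, c3⟩ := hcop p hp hpq
      refine hj p c1 c2 (hsmall p u hpu (by omega) huW) c3 0 ?_
      have e : ((Q : ℕ) : ℤ) * j + (u0 : ℤ) = ((u : ℕ) : ℤ) := by rw [hu]; push_cast; ring
      show ((p ^ 2 : ℕ) : ℤ) ∣ ((Q : ℕ) : ℤ) * j + (u0 : ℤ)
      rw [e, Int.natCast_dvd_natCast, pow_two]
      exact hpu
  have hs2 : ∀ p : ℕ, p.Prime → p ∣ 8 * q → p ∣ 4 * q ^ 2 * u := by
    intro p hp hpq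
    have : p ∣ 4 * q ^ 2 := by
      rcases (Nat.Prime.dvd_mul hp).1 hpq with h | h
      · have h8 : p ∣ 2 ^ 3 := by norm_num; exact h
        have h2 := hp.dvd_of_dvd_pow h8
        exact Dvd.dvd.mul_right (h2.trans (by norm_num)) _
      · exact Dvd.dvd.mul_left (h.trans (dvd_pow_self q two_ne_zero)) _
    exact this.mul_right _
  have hsm : Squarefree (4 * q ^ 2 * u - 1) := by
    rw [Nat.squarefree_iff_prime_squarefree]
    intro p hp hpu
    by_cases hpq : p ∣ 8 * q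
    · have h1 := hs2 p hp hpq
      have h2 : p ∣ 4 * q ^ 2 * u - 1 := (dvd_mul_right p p).trans hpu
      have h3 := (Nat.dvd_sub h1 h2)
      have h4 : 4 * q ^ 2 * u - (4 * q ^ 2 * u - 1) = 1 := by omega
      rw [h4] at h3
      exact hp.one_lt.ne' (Nat.dvd_one.1 h3)
    · obtain ⟨c1, c2, c3⟩ := hcop p hp hpq
      refine hj p c1 c2 (hsmall p _ hpu (by omega) (by omega)) c3 1 ?_
      have e : ((4 * q ^ 2 * Q : ℕ) : ℤ) * j + (4 * (q : ℤ) ^ 2 * u0 - 1) =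
          ((4 * q ^ 2 * u - 1 : ℕ) : ℤ) := by
        rw [Nat.cast_sub (by omega), hu]; push_cast; ring
      show ((p ^ 2 : ℕ) : ℤ) ∣ ((4 * q ^ 2 * Q : ℕ) : ℤ) * j + (4 * (q : ℤ) ^ 2 * u0 - 1)
      rw [e, Int.natCast_dvd_natCast, pow_two]
      exact hpu
  have hsp : Squarefree (4 * q ^ 2 * u + 1) := by
    rw [Nat.squarefree_iff_prime_squarefree]
    intro p hp hpu
    by_cases hpq : p ∣ 8 * q
    · have h1 := hs2 p hp hpq
      have h2 : p ∣ 4 * q ^ 2 * u + 1 := (dvd_mul_right p p).trans hpu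
      have h3 := (Nat.dvd_add_right h1).1 h2
      exact hp.one_lt.ne' (Nat.dvd_one.1 h3)
    · obtain ⟨c1, c2, c3⟩ := hcop p hp hpq
      refine hj p c1 c2 (hsmall p _ hpu (by omega) le_rfl) c3 2 ?_
      have e : ((4 * q ^ 2 * Q : ℕ) : ℤ) * j + (4 * (q : ℤ) ^ 2 * u0 + 1) =
          ((4 * q ^ 2 * u + 1 : ℕ) : ℤ) := by
        rw [hu]; push_cast; ring
      show ((p ^ 2 : ℕ) : ℤ) ∣ ((4 * q ^ 2 * Q : ℕ) : ℤ) * j + (4 * (q : ℤ) ^ 2 * u0 + 1)
      rw [e, Int.natCast_dvd_natCast, pow_two]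
      exact hpu
  refine ⟨?_, ?_⟩
  · refine squarefree_three (by omega) (dvd_mul_left _ _) ?_ hsu hsm hsp
    exact ⟨2 * q ^ 2 * u, by ring⟩
  · refine Nat.ModEq.trans ?_ ha'
    apply Nat.ModEq.symm
    rw [Nat.modEq_iff_dvd]
    have h1 : ((8 * q : ℕ) : ℤ) ∣ ((u + a' : ℕ) : ℤ) := by
      rw [Int.natCast_dvd_natCast]
      have : u + a' = (u0 + a') + Q * j := by rw [hu]; ring
      rw [this]
      have hQd : 8 * q ∣ Q := dvd_mul_right _ _
      exact dvd_add (hQd.trans hu3) (hQd.trans (dvd_mul_right _ _))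
    have e : ((u * (4 * q ^ 2 * u - 1) * (4 * q ^ 2 * u + 1) : ℕ) : ℤ) - (a' : ℤ) =
        ((8 * q : ℕ) : ℤ) * (2 * (q : ℤ) ^ 3 * (u : ℤ) ^ 3) - ((u + a' : ℕ) : ℤ) := by
      rw [Nat.cast_mul, Nat.cast_mul, Nat.cast_sub (by omega)]
      push_cast
      ring
    unfold fam
    rw [e]
    exact dvd_sub (dvd_mul_right _ _) h1

/-- the arithmetic of the sieve -/
lemma numeric {x l C N : ℝ} (hl : 5184 ≤ l) (hlC : C ≤ l) (hx : l ^ 4 ≤ x) (hN : 0 ≤ N)
    (hC : 0 ≤ C) (hN2 : N ^ 2 ≤ C * x) :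
    x / (8 * l) ≤ x * (1 / l - 20 / l ^ 2) - 3 * ((1 / l + 20 / l ^ 2) * (x / 4 + l ^ 2)) -
      3 * (2 * x / (l ^ 2 + 1) + N) := by
  have hl0 : 0 < l := by linarith
  obtain ⟨y, hy⟩ : ∃ y, x = y * l ^ 2 := ⟨x / l ^ 2, by field_simp⟩
  have hyl : l ^ 2 ≤ y := by
    have h1 : l ^ 2 * l ^ 2 ≤ y * l ^ 2 := by rw [← hy]; calc l ^ 2 * l ^ 2 = l ^ 4 := by ring
      _ ≤ x := hx
    exact le_of_mul_le_mul_right h1 (by positivity)
  have hy0 : 0 < y := lt_of_lt_of_le (by positivity) hyl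
  have hNle : N ≤ y * l / 72 := by
    by_contra h
    push Not at h
    have h1 : (y * l / 72) ^ 2 < N ^ 2 := pow_lt_pow_left₀ h (by positivity) (by norm_num)
    have h2 : N ^ 2 ≤ l * (y * l ^ 2) := by
      refine hN2.trans ?_
      rw [hy]
      exact mul_le_mul_of_nonneg_right hlC (by positivity)
    have h3 : y ^ 2 * l ^ 2 < 5184 * (l * (y * l ^ 2)) := by nlinarith
    have h4 : y * (y * l ^ 2) < (5184 * l) * (y * l ^ 2) := by nlinarith
    have h5 : y < 5184 * l := lt_of_mul_lt_mul_right h4 (by positivity)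
    nlinarith
  have h1 : 2 * x / (l ^ 2 + 1) ≤ 2 * y := by
    rw [div_le_iff₀ (by positivity), hy]
    nlinarith
  have e1 : x / (8 * l) = y * l / 8 := by rw [hy]; field_simp
  have e2 : x * (1 / l - 20 / l ^ 2) = y * l - 20 * y := by rw [hy]; field_simp
  have e3 : 3 * ((1 / l + 20 / l ^ 2) * (x / 4 + l ^ 2)) = 3 / 4 * (y * l) + 15 * y + 3 * l + 60 := by
    rw [hy]; field_simp; ring
  rw [e1, e2, e3]
  nlinarith

end Pool.Agent.Run7.h439.CD
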