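import Mathlib
import Pool.Agent.Run7.h439.CD.C

/-!
# Squarefree congruent numbers at which a real polynomial is close to a given number modulo one
-/

set_option autoImplicit false

namespace Pool.Agent.Run7.h439.CD

open Finset Polynomial
open Pool.Agent.H373R2.NB (Ph IW IW_all)

lemma arc_choice (β : ℝ) {s : ℝ} (hs0 : 0 < s) (hs1 : s ≤ 1) :
    ∃ a b : ℝ, 0 ≤ a ∧ a ≤ b ∧ b ≤ 1 ∧ b - a = s ∧
      ∀ x : ℝ, a ≤ Int.fract x → Int.fract x < b → ∃ z : ℤ, |x - β - z| ≤ s := by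
  have h1 := Int.fract_nonneg β
  have h2 := Int.fract_lt_one β
  have key : ∀ x : ℝ, |Int.fract x - Int.fract β| ≤ s → ∃ z : ℤ, |x - β - z| ≤ s := by
    intro x hx
    refine ⟨⌊x⌋ - ⌊β⌋, ?_⟩
    have e1 : x - β - ((⌊x⌋ - ⌊β⌋ : ℤ) : ℝ) = Int.fract x - Int.fract β := by
      have e2 := Int.floor_add_fract x
      have e3 := Int.floor_add_fract β
      push_cast
      linarith
    rw [e1]; exact hx
  by_cases h : Int.fract β + s ≤ 1
  · refine ⟨Int.fract β, Int.fract β + s, h1, by linarith, h, by ring, fun x hx1 hx2 => key x ?_⟩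
    rw [abs_le]; constructor <;> linarith
  · push Not at h
    refine ⟨1 - s, 1, by linarith, by linarith, le_rfl, by ring, fun x hx1 hx2 => key x ?_⟩
    rw [abs_le]; constructor <;> linarith

lemma exists_root (B : ℕ) (hB : 1 ≤ B) (L1 J : ℕ) (h : L1 ^ B ≤ J) :
    ∃ L, L1 ≤ L ∧ L ^ B ≤ J ∧ J < (L + 1) ^ B := by
  have hex : ∃ x, J < x ^ B := by
    refine ⟨J + 1, ?_⟩
    calc J < J + 1 := Nat.lt_succ_self J
      _ = (J + 1) ^ 1 := (pow_one _).symm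
      _ ≤ (J + 1) ^ B := Nat.pow_le_pow_right (by omega) hB
  classical
  have h1 := Nat.find_spec hex
  have h2 : L1 < Nat.find hex := by
    by_contra hcon
    push Not at hcon
    have := Nat.pow_le_pow_left hcon B
    omega
  refine ⟨Nat.find hex - 1, by omega, ?_, ?_⟩
  · have := Nat.find_min hex (m := Nat.find hex - 1) (by omega)
    omega
  · have e : Nat.find hex - 1 + 1 = Nat.find hex := by omega
    rw [e]; exact h1

open scoped Classical in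
theorem main_lead (κ : ℕ) (hκ : 1 ≤ κ) (ε : ℝ) (hε : 0 < ε) : ∃ δ : ℝ, 0 < δ ∧
    ∀ P : ℝ[X], P.natDegree = κ → Irrational P.leadingCoeff → ∀ β : ℝ, ∀ q a : ℕ, 1 ≤ q →
      Squarefree (Nat.gcd a (8 * q)) → ∀ X0 : ℕ, ∃ X, X0 ≤ X ∧ 1 ≤ X ∧
        (X : ℝ) ^ (1 / 3 - ε) ≤ (((Icc 1 X).filter (fun n : ℕ => n ≡ a [MOD 8 * q] ∧
          Squarefree n ∧ Congruent n ∧
          ∃ z : ℤ, |P.eval (n : ℝ) - β - z| < (n : ℝ) ^ (-δ))).card : ℝ) := by
  obtain ⟨c, m, hc, hI⟩ := IW_all (3 * κ) (by omega)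
  set B : ℕ := 9 * m + 12 * κ + 8 + ⌈1 / ε⌉₊ with hB
  have hB1 : 1 ≤ B := by omega
  refine ⟨1 / (3 * B + 1), by positivity, ?_⟩
  intro P hP hirr β q a hq hg X0
  obtain ⟨v, hv1, hv2, hv⟩ := start hq hg
  set W := 8 * q * Nat.gcd a (8 * q) with hW
  have hg0 : 1 ≤ Nat.gcd a (8 * q) := Nat.one_le_iff_ne_zero.2 hg.ne_zero
  have hW1 : 1 ≤ W := Nat.mul_pos (by omega) hg0
  set H0 : ℕ := (3 * κ).factorial * (16 * q ^ 4 * W ^ 3) ^ κ with hH0
  set C1 : ℕ := 16 * q ^ 4 * (2 * W) ^ 3 with hC1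
  set C2 : ℕ := 8 * q ^ 2 * W + 1 with hC2
  have hC1p : 1 ≤ C1 := Nat.one_le_iff_ne_zero.2 (by positivity)
  set L1 : ℕ := 5184 + C2 + 2 * c * H0 + 8 * C1 + C1 * 2 ^ (3 * B) with hL1
  obtain ⟨J, hJ0, hJ⟩ := exists_den P.leadingCoeff hirr (L1 ^ B + X0)
  obtain ⟨L, hL1L, hLJ, hJL⟩ := exists_root B hB1 L1 J (by omega)
  have hLbig : 5184 ≤ L := by omega
  have hL0 : (0 : ℝ) < L := by exact_mod_cast (by omega : 0 < L)
  have hL1r : (5184 : ℝ) ≤ L := by exact_mod_cast hLbig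
  have hJ1 : 1 ≤ J := hJ.1
  have hJr : (0 : ℝ) < J := by exact_mod_cast hJ1
  have hp : Par P c m q W L J B := by
    refine ⟨?_, ?_, hc, hq, hW1, hJ, ?_, ?_, hLJ⟩
    · intro N u α φ h1 h2 h3 h4
      rw [hP] at h3 ⊢
      exact hI N u α φ h1 h2 h3 h4
    · rw [hP]; exact hκ
    · rw [hP]; omega
    · rw [hP]
      have : 2 * c * H0 ≤ L := by omega
      exact this
  obtain ⟨a0, b0, ha0, hab0, hb0, hlen, hclose⟩ := arc_choice β (s := 1 / (L : ℝ)) (by positivity)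
    (by rw [div_le_one hL0]; linarith)
  set S := arcSet P q W v J a0 b0 with hS
  have hSsub : S ⊆ range J := filter_subset _ _
  set N0 := Nat.sqrt (4 * q ^ 2 * (v + W * J) + 1) with hN0
  have hsurv := survivors (J := J) (N0 := N0) (D := L ^ 2)
    ![W, 4 * q ^ 2 * W, 4 * q ^ 2 * W]
    ![(v : ℤ), 4 * (q : ℤ) ^ 2 * v - 1, 4 * (q : ℤ) ^ 2 * v + 1] S hSsub
    (σ := 1 / (L : ℝ) + 20 / (L : ℝ) ^ 2) (by positivity) (by
      intro k hk3 hkD c'
      have := arc_class hp (by omega : 1 ≤ k) hkD v ha0 hab0 hb0 c'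
      rw [hlen] at this
      exact this)
  have hall := arc_all hp v ha0 hab0 hb0
  rw [hlen] at hall
  set G := S.filter (fun j : ℕ => Free ![W, 4 * q ^ 2 * W, 4 * q ^ 2 * W]
    ![(v : ℤ), 4 * (q : ℤ) ^ 2 * v - 1, 4 * (q : ℤ) ^ 2 * v + 1] N0 j) with hG
  have hN2 : ((N0 : ℝ)) ^ 2 ≤ C2 * J := by
    have h1 : N0 ^ 2 ≤ 4 * q ^ 2 * (v + W * J) + 1 := by rw [hN0, pow_two]; exact Nat.sqrt_le _
    have h2 : v + W * J ≤ 2 * (W * J) := by
      have : W * 1 ≤ W * J := Nat.mul_le_mul_left _ hJ1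
      omega
    have h3 : 4 * q ^ 2 * (v + W * J) + 1 ≤ C2 * J := by
      calc 4 * q ^ 2 * (v + W * J) + 1 ≤ 4 * q ^ 2 * (2 * (W * J)) + J := by gcongr
        _ = C2 * J := by rw [hC2]; ring
    exact_mod_cast h1.trans h3
  have hnum := numeric (x := J) (l := L) (C := C2) (N := N0) hL1r
    (by exact_mod_cast (by omega : C2 ≤ L)) (by
      have h1 : L ^ 4 ≤ J := (Nat.pow_le_pow_right (by omega) (by omega)).trans hLJ
      exact_mod_cast h1) (Nat.cast_nonneg _) (Nat.cast_nonneg _) hN2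
  have hGcard : (J : ℝ) / (8 * L) ≤ (G.card : ℝ) := by
    have e1 : (((L ^ 2 : ℕ) : ℝ)) = (L : ℝ) ^ 2 := by push_cast; ring
    rw [e1] at hsurv
    linarith
  refine ⟨C1 * J ^ 3, ?_, Nat.mul_pos hC1p (by positivity), ?_⟩
  · have h1 : J ≤ J ^ 3 := Nat.le_self_pow (by norm_num) J
    have h2 : 1 * J ^ 3 ≤ C1 * J ^ 3 := Nat.mul_le_mul_right _ hC1p
    omega
  have hmem : ∀ j ∈ G, fam q (v + W * j) ∈ (Icc 1 (C1 * J ^ 3)).filter (fun n : ℕ =>
      n ≡ a [MOD 8 * q] ∧ Squarefree n ∧ Congruent n ∧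
          ∃ z : ℤ, |P.eval (n : ℝ) - β - z| < (n : ℝ) ^ (-(1 / (3 * (B : ℝ) + 1)))) := by
    intro j hj
    obtain ⟨hjS, hjF⟩ := mem_filter.1 hj
    obtain ⟨hjJ, hj1, hj2⟩ := mem_filter.1 hjS
    rw [mem_range] at hjJ
    have hu1 : 1 ≤ v + W * j := by omega
    have hlt : 4 * q ^ 2 * (v + W * j) + 1 < (N0 + 1) ^ 2 := by
      have h1 : 4 * q ^ 2 * (v + W * j) + 1 ≤ 4 * q ^ 2 * (v + W * J) + 1 := by gcongr
      have h2 := Nat.lt_succ_sqrt (4 * q ^ 2 * (v + W * J) + 1)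
      rw [← hN0] at h2
      calc 4 * q ^ 2 * (v + W * j) + 1 ≤ 4 * q ^ 2 * (v + W * J) + 1 := h1
        _ < (N0 + 1) * (N0 + 1) := h2
        _ = (N0 + 1) ^ 2 := by ring
    obtain ⟨hsq, hmod⟩ := hv N0 j hjF hlt
    have hcast := fam_cast hq hu1
    have hval : val P q W v j = P.eval ((fam q (v + W * j) : ℕ) : ℝ) := by
      unfold val
      rw [hcast]
      congr 1
      push_cast
      ring
    rw [hval] at hj1 hj2
    obtain ⟨z, hz⟩ := hclose _ hj1 hj2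
    have hn1 : 1 ≤ fam q (v + W * j) := Nat.one_le_iff_ne_zero.2 hsq.ne_zero
    have hnX : fam q (v + W * j) ≤ C1 * J ^ 3 := by
      have h1 : v + W * j ≤ 2 * W * J := by
        have h3 : W * 1 ≤ W * J := Nat.mul_le_mul_left _ hJ1
        have h4 : W * j ≤ W * J := Nat.mul_le_mul_left _ hjJ.le
        have h5 : 2 * W * J = W * J + W * J := by ring
        omega
      have h2 : (fam q (v + W * j) : ℝ) ≤ 16 * (q : ℝ) ^ 4 * ((v + W * j : ℕ) : ℝ) ^ 3 := by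
        rw [hcast]
        have : (0 : ℝ) ≤ ((v + W * j : ℕ) : ℝ) := Nat.cast_nonneg _
        linarith
      have h3 : fam q (v + W * j) ≤ 16 * q ^ 4 * (v + W * j) ^ 3 := by exact_mod_cast h2
      calc fam q (v + W * j) ≤ 16 * q ^ 4 * (v + W * j) ^ 3 := h3
        _ ≤ 16 * q ^ 4 * (2 * W * J) ^ 3 := by gcongr
        _ = C1 * J ^ 3 := by rw [hC1]; ring
    rw [mem_filter, mem_Icc]
    refine ⟨⟨hn1, hnX⟩, hmod, hsq, fam_congruent hq hu1, z, lt_of_le_of_lt hz ?_⟩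
    -- the size of `n`
    have hnr : (1 : ℝ) ≤ (fam q (v + W * j) : ℝ) := by exact_mod_cast hn1
    have hnlt : (fam q (v + W * j) : ℝ) < (L : ℝ) ^ (3 * B + 1) := by
      have h1 : C1 * J ^ 3 < L ^ (3 * B + 1) := by
        calc C1 * J ^ 3 < C1 * ((L + 1) ^ B) ^ 3 :=
              Nat.mul_lt_mul_of_pos_left (Nat.pow_lt_pow_left hJL (by norm_num)) (by omega)
          _ ≤ C1 * ((2 * L) ^ B) ^ 3 := by
              apply Nat.mul_le_mul_left
              apply Nat.pow_le_pow_left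
              apply Nat.pow_le_pow_left
              omega
          _ = (C1 * 2 ^ (3 * B)) * L ^ (3 * B) := by ring
          _ ≤ L * L ^ (3 * B) := Nat.mul_le_mul_right _ (by omega)
          _ = L ^ (3 * B + 1) := by ring
      exact_mod_cast lt_of_le_of_lt hnX h1
    have hδ : (0 : ℝ) < 1 / (3 * (B : ℝ) + 1) := by positivity
    have h2 : (fam q (v + W * j) : ℝ) ^ (1 / (3 * (B : ℝ) + 1)) < L := by
      have h3 := Real.rpow_lt_rpow (by linarith) hnlt hδ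
      have h4 : ((L : ℝ) ^ (3 * B + 1)) ^ (1 / (3 * (B : ℝ) + 1)) = L := by
        rw [← Real.rpow_natCast, ← Real.rpow_mul hL0.le]
        have : (((3 * B + 1 : ℕ) : ℝ)) * (1 / (3 * (B : ℝ) + 1)) = 1 := by
          push_cast
          field_simp
        rw [this, Real.rpow_one]
      rw [h4] at h3
      exact h3
    rw [Real.rpow_neg (by linarith), ← one_div]
    exact one_div_lt_one_div_of_lt (Real.rpow_pos_of_pos (by linarith) _) h2
  have hcard : G.card ≤ ((Icc 1 (C1 * J ^ 3)).filter (fun n : ℕ =>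
      n ≡ a [MOD 8 * q] ∧ Squarefree n ∧ Congruent n ∧
          ∃ z : ℤ, |P.eval (n : ℝ) - β - z| < (n : ℝ) ^ (-(1 / (3 * (B : ℝ) + 1))))).card := by
    refine card_le_card_of_injOn (fun j => fam q (v + W * j)) (fun j hj => hmem j hj) ?_
    intro j hj j' hj' heq
    have heq' : fam q (v + W * j) = fam q (v + W * j') := heq
    rcases lt_trichotomy j j' with h | h | h
    · exfalso
      have h1 : v + W * j < v + W * j' := by
        have := Nat.mul_lt_mul_of_pos_left h hW1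
        omega
      exact absurd heq' (fam_lt hq (by omega) h1).ne
    · exact h
    · exfalso
      have h1 : v + W * j' < v + W * j := by
        have := Nat.mul_lt_mul_of_pos_left h hW1
        omega
      exact absurd heq'.symm (fam_lt hq (by omega) h1).ne
  have hcard' : (G.card : ℝ) ≤ _ := Nat.cast_le.2 hcard
  refine le_trans ?_ hcard'
  refine le_trans ?_ hGcard
  -- the size of the count
  have hX1 : (1 : ℝ) ≤ ((C1 * J ^ 3 : ℕ) : ℝ) := by
    have : 1 ≤ C1 * J ^ 3 := Nat.mul_pos hC1p (by positivity)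
    exact_mod_cast this
  have hX0 : (0 : ℝ) < ((C1 * J ^ 3 : ℕ) : ℝ) := by linarith
  have h13 : ((C1 * J ^ 3 : ℕ) : ℝ) ^ ((1 : ℝ) / 3) ≤ C1 * J := by
    have h1 : ((C1 * J ^ 3 : ℕ) : ℝ) ≤ ((C1 : ℝ) * J) ^ 3 := by
      have : C1 * J ^ 3 ≤ (C1 * J) ^ 3 := by
        calc C1 * J ^ 3 = C1 ^ 1 * J ^ 3 := by ring
          _ ≤ C1 ^ 3 * J ^ 3 := by
              apply Nat.mul_le_mul_right
              exact Nat.pow_le_pow_right hC1p (by norm_num)
          _ = _ := by ring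
      exact_mod_cast this
    calc ((C1 * J ^ 3 : ℕ) : ℝ) ^ ((1 : ℝ) / 3) ≤ (((C1 : ℝ) * J) ^ 3) ^ ((1 : ℝ) / 3) :=
          Real.rpow_le_rpow hX0.le h1 (by norm_num)
      _ = C1 * J := by
          rw [← Real.rpow_natCast, ← Real.rpow_mul (by positivity)]
          norm_num
  have hXε : (L : ℝ) ^ 2 ≤ ((C1 * J ^ 3 : ℕ) : ℝ) ^ ε := by
    have h1 : (L : ℝ) ^ (3 * B) ≤ ((C1 * J ^ 3 : ℕ) : ℝ) := by
      have : L ^ (3 * B) ≤ C1 * J ^ 3 := by
        calc L ^ (3 * B) = 1 * (L ^ B) ^ 3 := by ring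
          _ ≤ C1 * J ^ 3 := Nat.mul_le_mul hC1p (Nat.pow_le_pow_left hLJ 3)
      exact_mod_cast this
    have h2 : (2 : ℝ) ≤ ((3 * B : ℕ) : ℝ) * ε := by
      have h3 : (1 : ℝ) / ε ≤ ⌈1 / ε⌉₊ := Nat.le_ceil _
      have h4 : (⌈1 / ε⌉₊ : ℝ) ≤ B := by
        have : ⌈1 / ε⌉₊ ≤ B := by omega
        exact_mod_cast this
      have h5 : 1 ≤ (B : ℝ) * ε := by
        have := h3.trans h4
        rw [div_le_iff₀ hε] at this
        exact this
      push_cast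
      linarith
    calc (L : ℝ) ^ 2 = (L : ℝ) ^ ((2 : ℝ)) := by norm_num
      _ ≤ (L : ℝ) ^ (((3 * B : ℕ) : ℝ) * ε) := Real.rpow_le_rpow_of_exponent_le (by linarith) h2
      _ = ((L : ℝ) ^ (3 * B)) ^ ε := by
          rw [Real.rpow_mul hL0.le, Real.rpow_natCast]
      _ ≤ _ := Real.rpow_le_rpow (by positivity) h1 hε.le
  rw [Real.rpow_sub hX0]
  have hLpos : (0 : ℝ) < (L : ℝ) ^ 2 := by positivity
  calc ((C1 * J ^ 3 : ℕ) : ℝ) ^ ((1 : ℝ) / 3) / ((C1 * J ^ 3 : ℕ) : ℝ) ^ ε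
      ≤ (C1 * J) / (L : ℝ) ^ 2 := by
        gcongr
    _ ≤ J / (8 * L) := by
        rw [div_le_div_iff₀ hLpos (by positivity)]
        have h8 : (8 : ℝ) * C1 ≤ L := by exact_mod_cast (by omega : 8 * C1 ≤ L)
        have : (8 * (C1 : ℝ)) * (J * L) ≤ L * (J * L) := mul_le_mul_of_nonneg_right h8 (by positivity)
        nlinarith

end Pool.Agent.Run7.h439.CD
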